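import Pool.Agent.H14.TradeTransfer

set_option autoImplicit false

namespace Pool.Agent.Results.MP_8a557e_co.LongTrades

open Pool.Agent.H14

/-- rows of the Fibonacci recursion -/
def M (k : ℕ) (r : Fin (k + 1)) (i : Fin (k + 2)) : ℤ :=
  if i.val = r.val + 1 then 1 else if i.val = r.val ∨ i.val + 1 = r.val then -1 else 0

theorem row_sum (k : ℕ) (r : Fin (k + 1)) (a : ℕ → ℝ) :
    ∑ i : Fin (k + 2), (M k r i : ℝ) * a i.val =
      a (r.val + 1) - a r.val - (if r.val = 0 then 0 else a (r.val - 1)) := by
  have hr := r.isLt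
  have e : ∀ i : Fin (k + 2), (M k r i : ℝ) * a i.val =
      (if i.val = r.val + 1 then a i.val else 0) - (if i.val = r.val then a i.val else 0) -
        (if i.val + 1 = r.val then a i.val else 0) := by
    intro i
    unfold M
    split_ifs <;> first | omega | (push_cast; ring)
  simp only [e]
  rw [Finset.sum_sub_distrib, Finset.sum_sub_distrib]
  rw [Fin.sum_univ_eq_sum_range (fun i => if i = r.val + 1 then a i else 0) (k + 2),
    Fin.sum_univ_eq_sum_range (fun i => if i = r.val then a i else 0) (k + 2),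
    Fin.sum_univ_eq_sum_range (fun i => if i + 1 = r.val then a i else 0) (k + 2)]
  rw [Finset.sum_ite_eq' (Finset.range (k + 2)) (r.val + 1) a,
    Finset.sum_ite_eq' (Finset.range (k + 2)) r.val a,
    if_pos (Finset.mem_range.2 (by omega)), if_pos (Finset.mem_range.2 (by omega))]
  congr 1
  by_cases h0 : r.val = 0
  · rw [if_pos h0]
    apply Finset.sum_eq_zero
    intro i _
    rw [if_neg (by omega)]
  · rw [if_neg h0]
    have : ∀ i, (if i + 1 = r.val then a i else 0) = if i = r.val - 1 then a i else 0 := by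
      intro i
      by_cases h : i + 1 = r.val
      · rw [if_pos h, if_pos (by omega)]
      · rw [if_neg h, if_neg (by omega)]
    simp only [this]
    rw [Finset.sum_ite_eq' (Finset.range (k + 2)) (r.val - 1) a,
      if_pos (Finset.mem_range.2 (by omega))]

theorem fib_ge (m : ℕ) : 2 ^ m ≤ Nat.fib (2 * m + 2) := by
  induction m with
  | zero => simp
  | succ m ih =>
    have h1 : Nat.fib (2 * (m + 1) + 2) = Nat.fib (2 * m + 2) + Nat.fib (2 * m + 3) := by
      rw [show 2 * (m + 1) + 2 = (2 * m + 2) + 2 by ring, Nat.fib_add_two]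
    have h2 : Nat.fib (2 * m + 2) ≤ Nat.fib (2 * m + 3) := Nat.fib_mono (by omega)
    rw [pow_succ, h1]
    omega

/-- There is no polynomial `P` such that every non-weighted switching function on `n` variables
is `P(n)`-summable. -/
theorem result (P : Polynomial ℝ) :
    ∃ (n : ℕ) (f : (Fin n → Bool) → Bool), IsSwitching f ∧ ¬ IsWeighted f ∧
      ∀ j : ℕ, 1 ≤ j → (j : ℝ) ≤ P.eval (n : ℝ) → ¬ HasTrade f j := by
  obtain ⟨m, hm⟩ := poly_lt_two_pow (P.comp (Polynomial.C 16 * Polynomial.X + Polynomial.C 12))
  simp only [Polynomial.eval_comp, Polynomial.eval_add, Polynomial.eval_mul, Polynomial.eval_C,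
    Polynomial.eval_X] at hm
  -- k = 2 m
  have hMval : ∀ (r : Fin (2 * m + 1)) (i : Fin (2 * m + 2)),
      M (2 * m) r i = -1 ∨ M (2 * m) r i = 0 ∨ M (2 * m) r i = 1 := by
    intro r i
    unfold M
    split_ifs <;> simp
  obtain ⟨f, hf1, hf2, hf3⟩ := core (μ := Fin (2 * m + 2)) (ρ := Fin (2 * m + 1)) (M (2 * m)) hMval
    (fun i => (Nat.fib (i.val + 1) : ℝ)) (fun i => Nat.cast_nonneg _)
    ⟨0, by simp⟩ (by
      intro r
      rw [row_sum (2 * m) r (fun i => (Nat.fib (i + 1) : ℝ))]
      by_cases h : r.val = 0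
      · simp [h]
      · rw [if_neg h]
        obtain ⟨s, hs⟩ := Nat.exists_eq_succ_of_ne_zero h
        rw [hs]
        have : Nat.fib (s.succ + 1 + 1) = Nat.fib (s + 1) + Nat.fib (s + 2) := by
          rw [show s.succ + 1 + 1 = (s + 1) + 2 by omega, Nat.fib_add_two]
        rw [this]
        simp only [Nat.succ_eq_add_one, Nat.add_sub_cancel]
        push_cast
        ring) (2 ^ m) (by
      intro a ha hne
      -- extend a to ℕ
      let b : ℕ → ℕ := fun i => if h : i < 2 * m + 2 then a ⟨i, h⟩ else 0
      have hb : ∀ i : Fin (2 * m + 2), a i = b i.val := by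
        intro i
        simp [b]
      have hrec : ∀ r : ℕ, r < 2 * m + 1 → (b (r + 1) : ℝ) =
          b r + (if r = 0 then 0 else (b (r - 1) : ℝ)) := by
        intro r hr
        have h1 := ha ⟨r, hr⟩
        have h2 : ∑ i : Fin (2 * m + 2), (M (2 * m) ⟨r, hr⟩ i : ℝ) * (b i.val : ℝ) = 0 := by
          have h3 := congrArg (fun z : ℤ => (z : ℝ)) h1
          push_cast at h3
          simp only [hb] at h3
          simpa using h3
        rw [row_sum (2 * m) ⟨r, hr⟩ (fun i => (b i : ℝ))] at h2
        simp only at h2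
        linarith
      have hfib : ∀ i : ℕ, i < 2 * m + 2 → b i = b 0 * Nat.fib (i + 1) := by
        intro i
        induction i using Nat.strong_induction_on with
        | _ i ih =>
          intro hi
          rcases i with _ | _ | i
          · simp
          · have := hrec 0 (by omega)
            rw [if_pos rfl, add_zero] at this
            have h : b 1 = b 0 := by exact_mod_cast this
            simpa using h
          · have := hrec (i + 1) (by omega)
            rw [if_neg (by omega), Nat.add_sub_cancel] at this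
            have h : b (i + 1 + 1) = b (i + 1) + b i := by exact_mod_cast this
            have hfb : Nat.fib (i + 1 + 1 + 1) = Nat.fib (i + 1) + Nat.fib (i + 1 + 1) :=
              Nat.fib_add_two
            rw [h, ih (i + 1) (by omega) (by omega), ih i (by omega) (by omega), hfb]
            ring
      have hb0 : b 0 ≠ 0 := by
        intro h0
        obtain ⟨i, hi⟩ := hne
        apply hi
        rw [hb, hfib _ i.isLt, h0, zero_mul]
      have hlast := hfib (2 * m + 1) (by omega)
      have h1 : 2 ^ m ≤ b (2 * m + 1) := by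
        rw [hlast]
        calc 2 ^ m ≤ Nat.fib (2 * m + 2) := fib_ge m
          _ ≤ b 0 * Nat.fib (2 * m + 1 + 1) := Nat.le_mul_of_pos_left _ (Nat.pos_of_ne_zero hb0)
      calc 2 ^ m ≤ b (2 * m + 1) := h1
        _ = a ⟨2 * m + 1, by omega⟩ := (hb ⟨2 * m + 1, by omega⟩).symm
        _ ≤ ∑ i, a i := Finset.single_le_sum (fun i _ => Nat.zero_le (a i)) (Finset.mem_univ _))
  have hcard : Fintype.card (Coord (Fin (2 * m + 2)) (Fin (2 * m + 1))) = 16 * m + 12 := by
    simp only [Coord, Fintype.card_sum, Fintype.card_prod, Fintype.card_fin, Fintype.card_bool]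
    ring
  obtain ⟨f', h1, h2, h3⟩ := transfer (16 * m + 12) (le_of_eq hcard) f hf1 hf2
  refine ⟨16 * m + 12, f', h1, h2, ?_⟩
  intro j hj hjP htr
  have h4 := hf3 j hj (h3 j htr)
  have h5 : ((2 * 2 ^ m : ℕ) : ℝ) ≤ (j : ℝ) := by exact_mod_cast h4
  push_cast at h5 hjP
  have h6 : (0 : ℝ) < 2 ^ m := by positivity
  linarith

end Pool.Agent.Results.MP_8a557e_co.LongTrades
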